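import Pool.Agent.H92.SF.LUT
import Pool.Agent.H19.SRF.CN2a

/-!
# MP_70ba79_ag, THEOREM S: the relation between the forms `q` (KQA)
-/

set_option autoImplicit false

namespace Pool.Agent.H19.SFU

open MvPolynomial
open Pool.Agent.H84.SM (dp cr dt)
open Pool.Agent.H3.SF Pool.Agent.H92.SF
open Pool.Agent.H19.SRF (cr_cr map_cr)

section

variable {F : Type} [Field F]

/-- `Z = 0` -/
theorem kqa_ker (p : MvPolynomial (Fin 3) F)
    (hp : aeval (![X 0, X 1, 0] : Fin 3 → MvPolynomial (Fin 2) F) p = 0) : X 2 ∣ p := by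
  have h : ∀ p : MvPolynomial (Fin 3) F, X 2 ∣
      p - rename Fin.castSucc (aeval (![X 0, X 1, 0] : Fin 3 → MvPolynomial (Fin 2) F) p) := by
    intro p
    induction p using MvPolynomial.induction_on with
    | C a =>
      rw [algHom_C, algebraMap_eq, rename_C, sub_self]
      exact dvd_zero _
    | add p q hp hq =>
      rw [map_add, map_add, add_sub_add_comm]
      exact dvd_add hp hq
    | mul_X p i hp =>
      rw [map_mul, map_mul, aeval_X]
      have e : ∀ (P Q : MvPolynomial (Fin 3) F) (x y : MvPolynomial (Fin 3) F), X 2 ∣ P - Q →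
          X 2 ∣ x - y → X 2 ∣ P * x - Q * y := by
        intro P Q x y h1 h2
        have h3 : P * x - Q * y = (P - Q) * x + Q * (x - y) := by ring
        rw [h3]
        exact dvd_add (Dvd.dvd.mul_right h1 _) (Dvd.dvd.mul_left h2 _)
      refine e _ _ _ _ hp ?_
      fin_cases i
      · show X 2 ∣ (X 0 : MvPolynomial (Fin 3) F) - rename Fin.castSucc (X 0)
        rw [rename_X]
        show X 2 ∣ (X 0 : MvPolynomial (Fin 3) F) - X 0
        rw [sub_self]
        exact dvd_zero _
      · show X 2 ∣ (X 1 : MvPolynomial (Fin 3) F) - rename Fin.castSucc (X 1)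
        rw [rename_X]
        show X 2 ∣ (X 1 : MvPolynomial (Fin 3) F) - X 1
        rw [sub_self]
        exact dvd_zero _
      · show X 2 ∣ (X 2 : MvPolynomial (Fin 3) F) - rename Fin.castSucc 0
        rw [map_zero, sub_zero]
  have h1 := h p
  rwa [hp, map_zero, sub_zero] at h1

theorem kqa_core (u g : Fin 3 → F) (e : F) (hu0 : u 0 ≠ 0) (he : e * dp u g = 1)
    (b : MvPolynomial (Fin 3) F)
    (hb : aeval (fun i => -(C e * cr (fun l => C (g l))
      ![-(C ((u 0)⁻¹ * u 1) * X 0 + C ((u 0)⁻¹ * u 2) * X 1), X 0, X 1] i) :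
        Fin 3 → MvPolynomial (Fin 2) F) b = 0) :
    ∃ c, b = (∑ l, C (g l) * X l) * c := by
  obtain ⟨a1, ha1⟩ : ∃ a1, a1 = (u 0)⁻¹ * u 1 := ⟨_, rfl⟩
  obtain ⟨a2, ha2⟩ : ∃ a2, a2 = (u 0)⁻¹ * u 2 := ⟨_, rfl⟩
  rw [← ha1, ← ha2] at hb
  obtain ⟨v, hv⟩ : ∃ v : Fin 3 → MvPolynomial (Fin 3) F,
      v = ![-(C a1 * X 0 + C a2 * X 1), X 0, X 1] := ⟨_, rfl⟩
  obtain ⟨al, hal⟩ : ∃ al : Fin 3 → MvPolynomial (Fin 3) F,
      al = fun i => -(C e * cr (fun l => C (g l)) v i) + C (e * u i) * X 2 := ⟨_, rfl⟩
  obtain ⟨be, hbe⟩ : ∃ be : Fin 3 → MvPolynomial (Fin 3) F,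
      be = ![cr (fun l => C (u l)) X 1, cr (fun l => C (u l)) X 2, ∑ l, C (g l) * X l] :=
    ⟨_, rfl⟩
  -- reduction of `A b`
  have h1 : aeval (![X 0, X 1, 0] : Fin 3 → MvPolynomial (Fin 2) F) (aeval al b) = 0 := by
    refine Eq.trans ?_ hb
    rw [← AlgHom.comp_apply, comp_aeval]
    refine congrArg (fun f : Fin 3 → MvPolynomial (Fin 2) F => aeval f b) (funext fun i => ?_)
    have e1 : ∀ j, aeval (![X 0, X 1, 0] : Fin 3 → MvPolynomial (Fin 2) F) (v j) =
        (![-(C a1 * X 0 + C a2 * X 1), X 0, X 1] :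
          Fin 3 → MvPolynomial (Fin 2) F) j := by
      intro j
      rw [hv]
      fin_cases j
      · show aeval (![X 0, X 1, 0] : Fin 3 → MvPolynomial (Fin 2) F)
          (-(C a1 * X 0 + C a2 * X 1)) = _
        rw [map_neg, map_add, map_mul, map_mul, aeval_X, aeval_X, aeval_C, aeval_C]
        rfl
      · show aeval (![X 0, X 1, 0] : Fin 3 → MvPolynomial (Fin 2) F) (X 0) = _
        rw [aeval_X]
        rfl
      · show aeval (![X 0, X 1, 0] : Fin 3 → MvPolynomial (Fin 2) F) (X 1) = _
        rw [aeval_X]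
        rfl
    have e2 : aeval (![X 0, X 1, 0] : Fin 3 → MvPolynomial (Fin 2) F)
        (X 2 : MvPolynomial (Fin 3) F) = 0 := by
      rw [aeval_X]
      rfl
    have e3 := map_cr ((aeval (![X 0, X 1, 0] : Fin 3 → MvPolynomial (Fin 2) F) :
      MvPolynomial (Fin 3) F →ₐ[F] MvPolynomial (Fin 2) F) :
        MvPolynomial (Fin 3) F →+* MvPolynomial (Fin 2) F) (fun l => C (g l)) v i
    rw [hal, map_add, map_neg, map_mul, map_mul, e2, mul_zero, add_zero, aeval_C]
    refine congrArg Neg.neg (congrArg (fun z : MvPolynomial (Fin 2) F => C e * z) ?_)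
    refine e3.trans ?_
    have e4 : (fun j => ((aeval (![X 0, X 1, 0] : Fin 3 → MvPolynomial (Fin 2) F) :
      MvPolynomial (Fin 3) F →ₐ[F] MvPolynomial (Fin 2) F) :
        MvPolynomial (Fin 3) F →+* MvPolynomial (Fin 2) F) (v j)) =
          (![-(C a1 * X 0 + C a2 * X 1), X 0, X 1] :
          Fin 3 → MvPolynomial (Fin 2) F) := funext e1
    rw [e4]
    have e5 : (fun j => ((aeval (![X 0, X 1, 0] : Fin 3 → MvPolynomial (Fin 2) F) :
      MvPolynomial (Fin 3) F →ₐ[F] MvPolynomial (Fin 2) F) :
        MvPolynomial (Fin 3) F →+* MvPolynomial (Fin 2) F) ((fun l => C (g l)) j)) =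
          (fun l => C (g l) : Fin 3 → MvPolynomial (Fin 2) F) := funext fun j => aeval_C _ _
    rw [e5]
  obtain ⟨c', hc'⟩ := kqa_ker _ h1
  -- the inverse
  have h2 : aeval be (aeval al b) = b := by
    rw [← AlgHom.comp_apply, comp_aeval]
    have e1 : ∀ j, aeval be (v j) = cr (fun l => C (u l)) X j := by
      intro j
      rw [hv, hbe]
      fin_cases j
      · show aeval _ (-(C a1 * X 0 + C a2 * X 1)) = _
        rw [map_neg, map_add, map_mul, map_mul, aeval_X, aeval_X, aeval_C, aeval_C]
        show -(C a1 * (C (u 2) * X 0 - C (u 0) * X 2) +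
          C a2 * (C (u 0) * X 1 - C (u 1) * X 0)) = C (u 1) * X 2 - C (u 2) * X 1
        have h3 : (C a1 : MvPolynomial (Fin 3) F) * C (u 0) = C (u 1) := by
          rw [← C_mul, ha1]
          congr 1
          field_simp
        have h4 : (C a2 : MvPolynomial (Fin 3) F) * C (u 0) = C (u 2) := by
          rw [← C_mul, ha2]
          congr 1
          field_simp
        have h5 : (C a1 : MvPolynomial (Fin 3) F) * C (u 2) =
            C a2 * C (u 1) := by
          rw [← C_mul, ← C_mul, ha1, ha2]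
          congr 1
          ring
        linear_combination X 2 * h3 - X 1 * h4 - X 0 * h5
      · show aeval _ (X 0) = _
        rw [aeval_X]
        rfl
      · show aeval _ (X 1) = _
        rw [aeval_X]
        rfl
    have e2 : aeval be (X 2 : MvPolynomial (Fin 3) F) = ∑ l, C (g l) * X l := by
      rw [aeval_X, hbe]
      rfl
    have e6 : ∀ i, aeval be (al i) = (X i : MvPolynomial (Fin 3) F) := by
      intro i
      have e3 := map_cr ((aeval be : MvPolynomial (Fin 3) F →ₐ[F] MvPolynomial (Fin 3) F) :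
        MvPolynomial (Fin 3) F →+* MvPolynomial (Fin 3) F) (fun l => C (g l)) v i
      have e4 : (fun j => ((aeval be : MvPolynomial (Fin 3) F →ₐ[F] MvPolynomial (Fin 3) F) :
        MvPolynomial (Fin 3) F →+* MvPolynomial (Fin 3) F) (v j)) =
          cr (fun l => C (u l)) X := funext e1
      have e5 : (fun j => ((aeval be : MvPolynomial (Fin 3) F →ₐ[F] MvPolynomial (Fin 3) F) :
        MvPolynomial (Fin 3) F →+* MvPolynomial (Fin 3) F) ((fun l => C (g l)) j)) =
          fun l => C (g l) := funext fun j => aeval_C _ _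
      rw [e4, e5, cr_cr] at e3
      have e7 : aeval be (cr (fun l => C (g l)) v i) =
          C (u i) * dp (fun l => C (g l)) X - X i * dp (fun l => C (g l)) (fun l => C (u l)) := e3
      rw [hal, map_add, map_neg, map_mul, map_mul, e2, aeval_C, aeval_C, e7]
      have e8 : (C e : MvPolynomial (Fin 3) F) * dp (fun l => C (g l)) (fun l => C (u l)) = 1 := by
        have h3 := congrArg (C : F →+* MvPolynomial (Fin 3) F) he
        rw [map_mul, map_one] at h3
        rw [← h3]
        congr 1
        unfold dp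
        rw [map_sum]
        refine Finset.sum_congr rfl fun l _ => ?_
        rw [C_mul, mul_comm]
      have e9 : (∑ l, C (g l) * X l : MvPolynomial (Fin 3) F) = dp (fun l => C (g l)) X := rfl
      rw [e9, algebraMap_eq]
      have e10 : (C (e * u i) : MvPolynomial (Fin 3) F) = C e * C (u i) := C_mul
      rw [e10]
      linear_combination X i * e8
    have e11 : (fun i => aeval be (al i)) = (X : Fin 3 → MvPolynomial (Fin 3) F) := funext e6
    rw [e11, aeval_X_left, AlgHom.id_apply]
  refine ⟨aeval be c', ?_⟩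
  rw [← h2, hc', map_mul, aeval_X]
  congr 1
  rw [hbe]
  rfl

theorem hc_mul (l : MvPolynomial (Fin 3) F) (hl : l.IsHomogeneous 1) (c : MvPolynomial (Fin 3) F) :
    homogeneousComponent 0 (l * c) = 0 ∧
    ∀ i, homogeneousComponent (i + 1) (l * c) = l * homogeneousComponent i c := by
  have h0 : ∀ j, (l * homogeneousComponent j c).IsHomogeneous (j + 1) := by
    intro j
    have h := hl.mul (homogeneousComponent_isHomogeneous j c)
    rwa [add_comm] at h
  have h1 : l * c = ∑ j ∈ Finset.range (c.totalDegree + 1), l * homogeneousComponent j c := by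
    rw [← Finset.mul_sum, sum_homogeneousComponent]
  have h2 : ∀ i j, homogeneousComponent i (l * homogeneousComponent j c) =
      if i = j + 1 then l * homogeneousComponent j c else 0 := fun i j =>
    homogeneousComponent_of_mem (h0 j)
  constructor
  · rw [h1, map_sum]
    refine Finset.sum_eq_zero fun j _ => ?_
    rw [h2, if_neg (by omega)]
  · intro i
    rw [h1, map_sum]
    have h3 : ∀ j, homogeneousComponent (i + 1) (l * homogeneousComponent j c) =
        if i = j then l * homogeneousComponent j c else 0 := by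
      intro j
      rw [h2]
      by_cases h : i = j
      · rw [if_pos h, if_pos (by omega)]
      · rw [if_neg h, if_neg (by omega)]
    rw [Finset.sum_congr rfl fun j _ => h3 j, Finset.sum_ite_eq]
    split_ifs with h
    · rfl
    · rw [Finset.mem_range] at h
      rw [homogeneousComponent_eq_zero _ _ (by omega), mul_zero]

end

theorem pf_KQA (hDAT : T_DAT) : T_KQA := by
  intro k F _ _ _ _ _ u dd δ j0 c0 J m G hB i b hb hq
  obtain ⟨hDt, hu, -, hmG, -⟩ := hDAT k F u dd δ j0 c0 J m G hB
  obtain ⟨c, hc⟩ := kqa_core u (fun l => dd l G) ((m : F) * G)⁻¹ (hu 0) (by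
    have h1 : dp u (fun l => dd l G) = (m : F) * G := hDt.eul
    rw [h1, inv_mul_cancel₀ hmG]) b hq
  have hl : (∑ l, C (dd l G) * X l : MvPolynomial (Fin 3) F).IsHomogeneous 1 := by
    refine IsHomogeneous.sum _ _ _ fun l _ => ?_
    have h3 := (isHomogeneous_C (Fin 3) (dd l G)).mul (isHomogeneous_X F l)
    rwa [zero_add] at h3
  obtain ⟨h0, h1⟩ := hc_mul _ hl c
  have hbc : homogeneousComponent i b = b := by
    have h2 := homogeneousComponent_of_mem (m := i) hb
    rwa [if_pos rfl] at h2
  rw [← hc] at h0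
  rcases Nat.eq_zero_or_pos i with hi | hi
  · refine ⟨0, fun _ => rfl, fun h => absurd h (by omega), ?_⟩
    rw [hi, h0] at hbc
    rw [mul_zero, ← hbc]
  · obtain ⟨j, rfl⟩ : ∃ j, i = j + 1 := ⟨i - 1, by omega⟩
    refine ⟨homogeneousComponent j c, fun h => absurd h (by omega), fun _ => ?_, ?_⟩
    · rw [Nat.add_sub_cancel]
      exact homogeneousComponent_isHomogeneous j c
    · rw [← h1, ← hc, hbc]

end Pool.Agent.H19.SFU
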