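import Pool.Agent.H92.SF.LUT
import Pool.Agent.H19.SRF.CN2a

/-!
# MP_70ba79_ag, THEOREM S: coefficients divisible by `G` (RES)
-/

set_option autoImplicit false

namespace Pool.Agent.H19.SFU

open MvPolynomial
open Pool.Agent.H84.SM (dp cr dt)
open Pool.Agent.H3.SF Pool.Agent.H92.SF
open Pool.Agent.H19.SRF (cr_cr map_cr map_hq map_dp)

section

variable {F : Type} [Field F]

/-- derivative with respect to `ρ i` in the chart ring -/
noncomputable def Dc (i : Fin 3) (P : C3 F) : C3 F :=
  ∑ j ∈ Finset.range (P.natDegree + 1), Polynomial.monomial j (pderiv i (P.coeff j))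

theorem coeff_Dc (i : Fin 3) (P : C3 F) (j : ℕ) : (Dc i P).coeff j = pderiv i (P.coeff j) := by
  unfold Dc
  rw [Polynomial.finsetSum_coeff]
  simp only [Polynomial.coeff_monomial]
  rw [Finset.sum_ite_eq' (Finset.range (P.natDegree + 1)) j]
  split_ifs with h
  · rfl
  · rw [Finset.mem_range] at h
    rw [Polynomial.coeff_eq_zero_of_natDegree_lt (by omega), map_zero]

theorem Dc_add (i : Fin 3) (P Q : C3 F) : Dc i (P + Q) = Dc i P + Dc i Q := by
  ext1 j
  rw [Polynomial.coeff_add, coeff_Dc, coeff_Dc, coeff_Dc, Polynomial.coeff_add, map_add]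

theorem Dc_mul (i : Fin 3) (P Q : C3 F) : Dc i (P * Q) = P * Dc i Q + Q * Dc i P := by
  ext1 j
  rw [mul_comm Q, Polynomial.coeff_add, coeff_Dc, Polynomial.coeff_mul, Polynomial.coeff_mul,
    Polynomial.coeff_mul, map_sum, ← Finset.sum_add_distrib]
  refine Finset.sum_congr rfl fun x _ => ?_
  rw [coeff_Dc, coeff_Dc, Derivation.leibniz, smul_eq_mul, smul_eq_mul]
  ring

theorem Dc_C (i : Fin 3) (p : MvPolynomial (Fin 3) F) :
    Dc i (Polynomial.C p) = Polynomial.C (pderiv i p) := by
  ext1 j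
  rw [coeff_Dc, Polynomial.coeff_C, Polynomial.coeff_C]
  split_ifs
  · rfl
  · rw [map_zero]

theorem Dc_X (i : Fin 3) : Dc i (Polynomial.X : C3 F) = 0 := by
  ext1 j
  rw [coeff_Dc, Polynomial.coeff_X, Polynomial.coeff_zero]
  split_ifs
  · exact Derivation.map_one_eq_zero _
  · rw [map_zero]

/-- the infinitesimal shift -/
noncomputable def nab (g : Fin 3 → F) (h P : C3 F) : C3 F :=
  ∑ i, cc (g i) * Dc i P + h * Polynomial.derivative P

theorem nab_add (g : Fin 3 → F) (h P Q : C3 F) : nab g h (P + Q) = nab g h P + nab g h Q := by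
  unfold nab
  rw [Polynomial.derivative_add]
  simp only [Dc_add, mul_add, Finset.sum_add_distrib]
  ring

theorem nab_mul (g : Fin 3 → F) (h P Q : C3 F) :
    nab g h (P * Q) = P * nab g h Q + Q * nab g h P := by
  unfold nab
  rw [Polynomial.derivative_mul]
  simp only [Dc_mul, mul_add, Finset.mul_sum, Finset.sum_add_distrib]
  have e1 : ∑ i, cc (g i) * (P * Dc i Q) = ∑ i, P * (cc (g i) * Dc i Q) :=
    Finset.sum_congr rfl fun i _ => by ring
  have e2 : ∑ i, cc (g i) * (Q * Dc i P) = ∑ i, Q * (cc (g i) * Dc i P) :=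
    Finset.sum_congr rfl fun i _ => by ring
  rw [e1, e2]
  ring

theorem nab_cc (g : Fin 3 → F) (h : C3 F) (a : F) : nab g h (cc a) = 0 := by
  have e : (cc a : C3 F) = Polynomial.C (C a) := rfl
  unfold nab
  rw [e, Polynomial.derivative_C, mul_zero, add_zero]
  refine Finset.sum_eq_zero fun i _ => ?_
  rw [Dc_C, pderiv_C, map_zero, mul_zero]

theorem nab_zero (g : Fin 3 → F) (h : C3 F) : nab g h 0 = 0 := by
  have := nab_cc g h 0
  rwa [map_zero] at this

theorem nab_neg (g : Fin 3 → F) (h P : C3 F) : nab g h (-P) = -nab g h P := by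
  have h1 := nab_add g h P (-P)
  rw [add_neg_cancel, nab_zero] at h1
  linear_combination -h1

theorem nab_sub (g : Fin 3 → F) (h P Q : C3 F) : nab g h (P - Q) = nab g h P - nab g h Q := by
  rw [sub_eq_add_neg, nab_add, nab_neg, sub_eq_add_neg]

theorem nab_sum (g : Fin 3 → F) (h : C3 F) (s : Finset (Fin 3)) (f : Fin 3 → C3 F) :
    nab g h (∑ i ∈ s, f i) = ∑ i ∈ s, nab g h (f i) := by
  induction s using Finset.induction_on with
  | empty => rw [Finset.sum_empty, Finset.sum_empty, nab_zero]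
  | insert a s ha ih => rw [Finset.sum_insert ha, Finset.sum_insert ha, nab_add, ih]

theorem nab_rv (g : Fin 3 → F) (h : C3 F) (i : Fin 3) : nab g h (rv i) = cc (g i) := by
  have e : (rv i : C3 F) = Polynomial.C (X i) := rfl
  unfold nab
  rw [e, Polynomial.derivative_C, mul_zero, add_zero, Finset.sum_eq_single i]
  · rw [Dc_C, pderiv_X_self, map_one, mul_one]
  · intro j _ hj
    rw [Dc_C, pderiv_X_of_ne (Ne.symm hj), map_zero, mul_zero]
  · intro h0
    exact absurd (Finset.mem_univ i) h0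

theorem nab_zv (g : Fin 3 → F) (h : C3 F) : nab g h zv = h := by
  have e : (zv : C3 F) = Polynomial.X := rfl
  unfold nab
  rw [e, Polynomial.derivative_X, mul_one, Finset.sum_eq_zero, zero_add]
  intro i _
  rw [Dc_X, mul_zero]

/-- `h` -/
noncomputable def hh (g : Fin 3 → F) (H : Fin 3 → Fin 3 → F) (s : F) : C3 F :=
  cc s ^ 6 * hq (fun i j => cc (H i j)) (gxr g) (gxr g)

theorem nab_gxr (g : Fin 3 → F) (h : C3 F) (i : Fin 3) : nab g h (gxr g i) = 0 := by
  have e : gxr g i = cc (g (i + 1)) * rv (i + 2) - cc (g (i + 2)) * rv (i + 1) := rfl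
  rw [e, nab_sub, nab_mul, nab_mul, nab_cc, nab_cc, nab_rv, nab_rv]
  ring

theorem nab_Psi (m : ℕ) (x g : Fin 3 → F) (G : F) (H : Fin 3 → Fin 3 → F) (s : F)
    (hD : Dat m x g G H) (V : Q2 F) : nab g (hh g H s) (Psi m x g G H s V) = 0 := by
  obtain ⟨h, hh'⟩ : ∃ h, h = hh g H s := ⟨_, rfl⟩
  rw [← hh']
  have hpow : ∀ (P : C3 F) (n : ℕ), nab g h P = 0 → nab g h (P ^ n) = 0 := by
    intro P n hP
    induction n with
    | zero =>
      rw [pow_zero]
      have := nab_cc g h 1
      rwa [map_one] at this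
    | succ n ih => rw [pow_succ, nab_mul, ih, hP, mul_zero, mul_zero, add_zero]
  have hmul : ∀ P Q : C3 F, nab g h P = 0 → nab g h Q = 0 → nab g h (P * Q) = 0 := by
    intro P Q hP hQ
    rw [nab_mul, hP, hQ, mul_zero, mul_zero, add_zero]
  have hmuc : nab g h (muc x) = cc (m * G) := by
    unfold muc dp
    rw [nab_sum, ← hD.eul]
    unfold dp
    rw [map_sum]
    refine Finset.sum_congr rfl fun i _ => ?_
    rw [nab_mul, nab_cc, nab_rv, mul_zero, add_zero, map_mul]
  have hpc : ∀ i, nab g h (pc m x g G s i) = 0 := by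
    intro i
    unfold pc
    refine hmul _ _ (hpow _ _ (nab_cc _ _ _)) ?_
    rw [nab_sub, nab_mul, nab_mul, nab_cc, nab_cc, nab_rv, hmuc]
    ring
  have hhq : nab g h (hq (fun i j => cc (H i j)) (gxr g) (gxr g)) = 0 := by
    unfold hq
    rw [nab_sum]
    refine Finset.sum_eq_zero fun i _ => ?_
    rw [nab_sum]
    refine Finset.sum_eq_zero fun j _ => ?_
    exact hmul _ _ (hmul _ _ (nab_cc _ _ _) (nab_gxr _ _ _)) (nab_gxr _ _ _)
  have hwc : nab g h (wc m x g G H s) = 0 := by
    unfold wc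
    rw [nab_sub, nab_mul, nab_cc, nab_zv, nab_mul, hmul _ _ (hpow _ 6 (nab_cc _ _ _)) hhq, hmuc,
      hh']
    unfold hh
    ring
  have hin : ∀ P : MvPolynomial (Fin 2) F, nab g h (Psi m x g G H s (Polynomial.C P)) = 0 := by
    have e1 : ∀ P : MvPolynomial (Fin 2) F, Psi m x g G H s (Polynomial.C P) =
        eval₂ cc ![pc m x g G s 1, pc m x g G s 2] P := by
      intro P
      show Polynomial.eval₂ _ _ (Polynomial.C P) = _
      rw [Polynomial.eval₂_C]
      rfl
    intro P
    rw [e1]
    induction P using MvPolynomial.induction_on with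
    | C a =>
      rw [eval₂_C]
      exact nab_cc _ _ _
    | add p q hp hq =>
      rw [eval₂_add, nab_add, hp, hq, add_zero]
    | mul_X p i hp =>
      rw [eval₂_mul, eval₂_X]
      refine hmul _ _ hp ?_
      fin_cases i
      · exact hpc 1
      · exact hpc 2
  induction V using Polynomial.induction_on' with
  | add p q hp hq => rw [map_add, nab_add, hp, hq, add_zero]
  | monomial n a =>
    rw [← Polynomial.C_mul_X_pow_eq_monomial, map_mul, map_pow]
    refine hmul _ _ (hin a) (hpow _ _ ?_)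
    have e2 : Psi m x g G H s Polynomial.X = wc m x g G H s := by
      show Polynomial.eval₂ _ _ Polynomial.X = _
      rw [Polynomial.eval₂_X]
    rw [e2]
    exact hwc

/-- the coefficients of `hh` -/
noncomputable def hM (g : Fin 3 → F) (H : Fin 3 → Fin 3 → F) (s : F) : MvPolynomial (Fin 3) F :=
  C s ^ 6 * hq (fun i j => C (H i j)) (cr (fun i => C (g i)) X) (cr (fun i => C (g i)) X)

theorem hh_eq (g : Fin 3 → F) (H : Fin 3 → Fin 3 → F) (s : F) :
    hh g H s = Polynomial.C (hM g H s) := by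
  unfold hh hM
  rw [map_mul, map_pow, map_hq]
  have e : ∀ i, (Polynomial.C (cr (fun i => C (g i)) X i) : C3 F) = gxr g i := fun i =>
    map_cr Polynomial.C _ _ i
  simp only [e]
  rfl

/-- the coefficients of the identity `nab = 0` -/
theorem nab_coeff (g : Fin 3 → F) (H : Fin 3 → Fin 3 → F) (s : F) (P : C3 F)
    (hP : nab g (hh g H s) P = 0) (j : ℕ) (a : Fin 3 →₀ ℕ) :
    ∑ i, g i * ((P.coeff j).coeff (a + Finsupp.single i 1) * (a i + 1)) +
      ∑ x ∈ Finset.HasAntidiagonal.antidiagonal a, (hM g H s).coeff x.1 *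
        ((P.coeff (j + 1)).coeff x.2 * ((j : F) + 1)) = 0 := by
  have h1 := congrArg (fun Q : C3 F => (Q.coeff j).coeff a) hP
  simp only [Polynomial.coeff_zero, coeff_zero] at h1
  rw [← h1]
  unfold nab
  rw [Polynomial.coeff_add, coeff_add, Polynomial.finsetSum_coeff, coeff_sum]
  congr 1
  · refine Finset.sum_congr rfl fun i _ => ?_
    have e : (cc (g i) : C3 F) = Polynomial.C (C (g i)) := rfl
    rw [e, Polynomial.coeff_C_mul, coeff_C_mul, coeff_Dc, coeff_pderiv]
  · rw [hh_eq, Polynomial.coeff_C_mul, Polynomial.coeff_derivative, coeff_mul]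
    refine Finset.sum_congr rfl fun x _ => ?_
    have e : ((j : MvPolynomial (Fin 3) F) + 1) = C ((j : F) + 1) := by
      rw [map_add, map_natCast, map_one]
    rw [e, mul_comm (Polynomial.coeff P (j + 1)), coeff_C_mul, mul_comm ((j : F) + 1)]

end

theorem pf_RES (hDAT : T_DAT) : T_RES := by
  intro k F _ _ _ _ _ u dd δ j0 c0 J m G hG V hint h0
  obtain ⟨hDt, -, -, -, -, -, -, -, hJg, hJH⟩ := hDAT k F u dd δ j0 c0 J m G hG.toBs
  have hG0 : G ≠ 0 := hG.ne
  have hn := nab_Psi m u (grd dd G) G (hes dd G) (aeval u J) hDt V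
  -- integrality of `J h`
  have hpi : Itg k u (aeval u J) := by
    have h := ((aeval u : MvPolynomial (Fin 3) k →ₐ[k] F) :
      MvPolynomial (Fin 3) k →+* F).isIntegralElem_map (x := J)
    exact h
  have hadd : ∀ P Q : MvPolynomial (Fin 3) F, (∀ a, P.coeff a ∈ Bb k u) →
      (∀ a, Q.coeff a ∈ Bb k u) → ∀ a, (P + Q).coeff a ∈ Bb k u := fun P Q hP hQ a => by
    rw [coeff_add]
    exact (Bb k u).add_mem (hP a) (hQ a)
  have hmul : ∀ P Q : MvPolynomial (Fin 3) F, (∀ a, P.coeff a ∈ Bb k u) →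
      (∀ a, Q.coeff a ∈ Bb k u) → ∀ a, (P * Q).coeff a ∈ Bb k u := fun P Q hP hQ a => by
    rw [coeff_mul]
    exact (Bb k u).sum_mem fun x _ => (Bb k u).mul_mem (hP _) (hQ _)
  have hsub : ∀ P Q : MvPolynomial (Fin 3) F, (∀ a, P.coeff a ∈ Bb k u) →
      (∀ a, Q.coeff a ∈ Bb k u) → ∀ a, (P - Q).coeff a ∈ Bb k u := fun P Q hP hQ a => by
    rw [coeff_sub]
    exact (Bb k u).sub_mem (hP a) (hQ a)
  have hsum : ∀ f : Fin 3 → MvPolynomial (Fin 3) F, (∀ i a, (f i).coeff a ∈ Bb k u) →
      ∀ a, (∑ i, f i).coeff a ∈ Bb k u := fun f hf a => by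
    rw [coeff_sum]
    exact (Bb k u).sum_mem fun i _ => hf i a
  have hC : ∀ c : F, c ∈ Bb k u → ∀ a, (C c : MvPolynomial (Fin 3) F).coeff a ∈ Bb k u := by
    intro c hc a
    rw [coeff_C]
    split_ifs
    exacts [hc, (Bb k u).zero_mem]
  have hX : ∀ i a, (X i : MvPolynomial (Fin 3) F).coeff a ∈ Bb k u := by
    intro i a
    rw [coeff_X]
    split_ifs
    exacts [(Bb k u).one_mem, (Bb k u).zero_mem]
  have hJM : ∀ a, aeval u J * (hM (grd dd G) (hes dd G) (aeval u J)).coeff a ∈ Bb k u := by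
    intro a
    obtain ⟨gx', hgx'⟩ : ∃ gx' : Fin 3 → MvPolynomial (Fin 3) F,
        gx' = cr (fun i => C (aeval u J * dd i G)) X := ⟨_, rfl⟩
    have e1 : C (aeval u J) * hM (grd dd G) (hes dd G) (aeval u J) =
        C (aeval u J ^ 3) * hq (fun i j => C (aeval u J ^ 2 * dd i (dd j G))) gx' gx' := by
      have e2 : ∀ i, gx' i = C (aeval u J) * cr (fun i => C (dd i G)) X i := by
        intro i
        rw [hgx']
        simp only [cr, C_mul]
        ring
      unfold hM hq
      simp only [e2, Finset.mul_sum, C_mul, C_pow, grd, hes]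
      refine Finset.sum_congr rfl fun i _ => Finset.sum_congr rfl fun j _ => ?_
      ring
    rw [← coeff_C_mul, e1]
    have hgI : ∀ i a, (gx' i).coeff a ∈ Bb k u := by
      intro i
      rw [hgx']
      exact hsub _ _ (hmul _ _ (hC _ (hJg _)) (hX _)) (hmul _ _ (hC _ (hJg _)) (hX _))
    refine hmul _ _ (hC _ ((Bb k u).pow_mem hpi 3)) ?_ a
    refine hsum _ fun i => hsum _ fun j => ?_
    exact hmul _ _ (hmul _ _ (hC _ (hJH i j)) (hgI i)) (hgI j)
  -- the induction
  have hmain : ∀ x : ℕ, ∀ (j : ℕ) (a : Fin 3 →₀ ℕ), a 2 = x →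
      cf u dd J m G V j a / G ∈ Bb k u := by
    intro x
    induction x using Nat.strong_induction_on with
    | _ x ih =>
      intro j a hax
      rcases Nat.eq_zero_or_pos x with hx | hx
      · exact h0 j a (by omega)
      obtain ⟨a0, ha0⟩ : ∃ a0 : Fin 3 →₀ ℕ, a = a0 + Finsupp.single 2 1 := by
        refine ⟨a - Finsupp.single 2 1, ?_⟩
        rw [tsub_add_cancel_of_le]
        rw [Finsupp.single_le_iff]
        omega
      have ha02 : a0 2 + 1 = x := by
        rw [← hax, ha0, Finsupp.add_apply, Finsupp.single_eq_same]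
      have hid := nab_coeff _ _ _ _ hn j a0
      have hcf : ∀ j a, ((Psi m u (grd dd G) G (hes dd G) (aeval u J) V).coeff j).coeff a =
          cf u dd J m G V j a := fun j a => rfl
      simp only [hcf] at hid
      rw [Fin.sum_univ_three] at hid
      have hk : ∀ (n : ℕ) (c : F), c ∈ Bb k u → c * ((n : F) + 1) ∈ Bb k u := by
        intro n c hc
        have e : ((n : F) + 1) = algebraMap k F ((n : k) + 1) := by
          rw [map_add, map_natCast, map_one]
        rw [e]
        exact (Bb k u).mul_mem hc ((Bb k u).algebraMap_mem _)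
      have t0 : aeval u J * dd 0 G * (cf u dd J m G V j (a0 + Finsupp.single 0 1) / G *
          ((a0 0 : F) + 1)) ∈ Bb k u := by
        refine (Bb k u).mul_mem (hJg 0) (hk _ _ (ih (a0 2) (by omega) j _ ?_))
        rw [Finsupp.add_apply, Finsupp.single_eq_of_ne (by decide), add_zero]
      have t1 : aeval u J * dd 1 G * (cf u dd J m G V j (a0 + Finsupp.single 1 1) / G *
          ((a0 1 : F) + 1)) ∈ Bb k u := by
        refine (Bb k u).mul_mem (hJg 1) (hk _ _ (ih (a0 2) (by omega) j _ ?_))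
        rw [Finsupp.add_apply, Finsupp.single_eq_of_ne (by decide), add_zero]
      have t3 : ∑ y ∈ Finset.HasAntidiagonal.antidiagonal a0,
          aeval u J * (hM (grd dd G) (hes dd G) (aeval u J)).coeff y.1 *
            (cf u dd J m G V (j + 1) y.2 / G * ((j : F) + 1)) ∈ Bb k u := by
        refine (Bb k u).sum_mem fun y hy => ?_
        refine (Bb k u).mul_mem (hJM _) (hk _ _ (ih (y.2 2) ?_ _ _ rfl))
        have h1 := Finset.HasAntidiagonal.mem_antidiagonal.1 hy
        have h2 : y.1 2 + y.2 2 = a0 2 := by rw [← h1, Finsupp.add_apply]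
        omega
      have hneg := (Bb k u).neg_mem ((Bb k u).add_mem ((Bb k u).add_mem t0 t1) t3)
      have hkey : -(aeval u J * dd 0 G * (cf u dd J m G V j (a0 + Finsupp.single 0 1) / G *
          ((a0 0 : F) + 1)) + aeval u J * dd 1 G *
          (cf u dd J m G V j (a0 + Finsupp.single 1 1) / G * ((a0 1 : F) + 1)) +
          ∑ y ∈ Finset.HasAntidiagonal.antidiagonal a0,
          aeval u J * (hM (grd dd G) (hes dd G) (aeval u J)).coeff y.1 *
            (cf u dd J m G V (j + 1) y.2 / G * ((j : F) + 1))) =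
          aeval u J * dd 2 G * cf u dd J m G V j a / G * ((a0 2 : F) + 1) := by
        have hs : ∑ y ∈ Finset.HasAntidiagonal.antidiagonal a0,
          aeval u J * (hM (grd dd G) (hes dd G) (aeval u J)).coeff y.1 *
            (cf u dd J m G V (j + 1) y.2 / G * ((j : F) + 1)) = aeval u J / G *
            ∑ y ∈ Finset.HasAntidiagonal.antidiagonal a0, (hM (grd dd G) (hes dd G) (aeval u J)).coeff y.1 *
              (cf u dd J m G V (j + 1) y.2 * ((j : F) + 1)) := by
          rw [Finset.mul_sum]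
          refine Finset.sum_congr rfl fun y _ => ?_
          ring
        rw [hs, ha0]
        have hg : ∀ i, grd dd G i = dd i G := fun i => rfl
        rw [hg, hg, hg] at hid
        linear_combination (-(aeval u J / G)) * hid
      rw [hkey] at hneg
      have hprod : aeval u J * dd 2 G * cf u dd J m G V j a / G ∈ Bb k u := by
        have h1 := (Bb k u).mul_mem hneg ((Bb k u).algebraMap_mem (((a0 2 : k) + 1)⁻¹))
        have h2 : ((a0 2 : F) + 1) ≠ 0 := by
          have e : ((a0 2 : F) + 1) = algebraMap k F ((a0 2 : k) + 1) := by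
            rw [map_add, map_natCast, map_one]
          rw [e, map_ne_zero]
          exact_mod_cast Nat.succ_ne_zero (a0 2)
        have e : aeval u J * dd 2 G * cf u dd J m G V j a / G * ((a0 2 : F) + 1) *
            algebraMap k F (((a0 2 : k) + 1)⁻¹) = aeval u J * dd 2 G * cf u dd J m G V j a / G := by
          rw [map_inv₀, map_add, map_natCast, map_one]
          field_simp
        rwa [e] at h1
      exact (hG.prm (aeval u J * dd 2 G) (cf u dd J m G V j a) (hJg 2) (hint j a)
        hprod).resolve_left hG.n2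
  exact fun j a => hmain (a 2) j a rfl

end Pool.Agent.H19.SFU
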