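import Pool.Agent.H19.SFU.TRYa

/-!
# MP_70ba79_ag, THEOREM S: change of coordinates, the sections (TRY)
-/

set_option autoImplicit false

namespace Pool.Agent.H19.SFU

open MvPolynomial
open Pool.Agent.H84.SM (dp cr dt)
open Pool.Agent.H3.SF Pool.Agent.H92.SF
open Pool.Agent.H19.SRF (hm_zero hm_add hm_sum hm_mul hm_one)

section

variable {k F : Type} [Field k] [Field F] [Algebra k F]

theorem ev3_s3 (a b : k) (P : C3 F) (j : ℕ) :
    (ev3 cc ![rv 0, rv 1, rv 2 + cc (algebraMap k F a) * rv 0 + cc (algebraMap k F b) * rv 1] zv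
      P).coeff j = s3 a b (P.coeff j) := by
  obtain ⟨f, hf⟩ : ∃ f : MvPolynomial (Fin 3) F →+* MvPolynomial (Fin 3) F,
      f = (s3 (F := F) a b : MvPolynomial (Fin 3) F →+* MvPolynomial (Fin 3) F) := ⟨_, rfl⟩
  have f0 : f (X 0) = X 0 := by
    rw [hf]
    exact s3_X0 _ _
  have f1 : f (X 1) = X 1 := by
    rw [hf]
    exact s3_X1 _ _
  have f2 : f (X 2) = X 2 + C (algebraMap k F a) * X 0 + C (algebraMap k F b) * X 1 := by
    rw [hf]
    exact s3_X2 _ _
  have fc : ∀ c, f (C c) = C c := by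
    intro c
    rw [hf]
    exact s3_C _ _ _
  have h : (ev3 cc ![rv 0, rv 1, rv 2 + cc (algebraMap k F a) * rv 0 +
      cc (algebraMap k F b) * rv 1] zv : C3 F →+* C3 F) = Polynomial.mapRingHom f := by
    apply Polynomial.ringHom_ext'
    · apply MvPolynomial.ringHom_ext
      · intro c
        rw [RingHom.comp_apply, RingHom.comp_apply, Polynomial.coe_mapRingHom, Polynomial.map_C,
          fc]
        exact ev3_cc _ _ _ _
      · intro i
        rw [RingHom.comp_apply, RingHom.comp_apply, Polynomial.coe_mapRingHom, Polynomial.map_C]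
        have e := ev3_rv (cc : F →+* C3 F) ![rv 0, rv 1, rv 2 + cc (algebraMap k F a) * rv 0 +
          cc (algebraMap k F b) * rv 1] zv i
        refine Eq.trans e ?_
        fin_cases i
        · show rv 0 = Polynomial.C (f (X 0))
          rw [f0]
          rfl
        · show rv 1 = Polynomial.C (f (X 1))
          rw [f1]
          rfl
        · show rv 2 + cc (algebraMap k F a) * rv 0 + cc (algebraMap k F b) * rv 1 =
            Polynomial.C (f (X 2))
          rw [f2, Polynomial.C_add, Polynomial.C_add, Polynomial.C_mul, Polynomial.C_mul]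
          rfl
    · rw [Polynomial.coe_mapRingHom, Polynomial.map_X]
      exact ev3_zv _ _ _
  rw [h, Polynomial.coe_mapRingHom, Polynomial.coeff_map, hf]
  rfl

end

theorem pf_TRY (hDAT : T_DAT) (hTRX : T_TRX) : T_TRY := by
  intro k F _ _ _ _ _ u dd δ j0 c0 J m G hB a b
  obtain ⟨hB', hItg, -, hae, heu⟩ := hTRX k F u dd δ j0 c0 J m G hB a b
  obtain ⟨hDt, hu0, -, -, hu1, -⟩ := hDAT k F u dd δ j0 c0 J m G hB
  obtain ⟨-, hu0', -⟩ := hDAT k F _ _ δ j0 c0 _ m G hB'
  obtain ⟨l, hl⟩ : ∃ l : F, l = algebraMap k F b - algebraMap k F a * ((u 0)⁻¹ * u 1) := ⟨_, rfl⟩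
  obtain ⟨μ, hμ⟩ : ∃ μ : F, μ = 1 - algebraMap k F a * ((u 0)⁻¹ * u 2) := ⟨_, rfl⟩
  have hμ0 : μ ≠ 0 := by
    have h1 := hu0' 0
    have h0 := hu0 0
    have e : uch a b u 0 = u 0 * μ := by
      rw [hμ]
      show u 0 - algebraMap k F a * u 2 = _
      field_simp
    rw [e] at h1
    exact right_ne_zero_of_mul h1
  have hT : Tch a b u = Polynomial.mapRingHom
      (th l μ : MvPolynomial (Fin 2) F →+* MvPolynomial (Fin 2) F) := by
    rw [hl, hμ]
    exact Tch_eq a b u
  have hTc : ∀ V j, (Tch a b u V).coeff j = th l μ (V.coeff j) := by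
    intro V j
    rw [hT, Polynomial.coe_mapRingHom, Polynomial.coeff_map]
    rfl
  have hinj : Function.Injective
      (th l μ : MvPolynomial (Fin 2) F →+* MvPolynomial (Fin 2) F) := by
    intro P Q h
    rw [← (th_inv l μ hμ0 P).2, ← (th_inv l μ hμ0 Q).2]
    exact congrArg _ h
  have hsurj : Function.Surjective
      (th l μ : MvPolynomial (Fin 2) F →+* MvPolynomial (Fin 2) F) := fun P =>
    ⟨th (-(μ⁻¹ * l)) μ⁻¹ P, (th_inv l μ hμ0 P).1⟩
  -- homogeneity
  obtain ⟨E0, hE0⟩ : ∃ E0, E0 = eu u dd := ⟨_, rfl⟩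
  have hz : ∀ x, Hm k E0 0 x ↔ E0 x = 0 := by
    intro x
    unfold Hm
    rw [Int.cast_zero, zero_mul]
  have hzi : ∀ x, x ≠ 0 → E0 x = 0 → E0 x⁻¹ = 0 := by
    intro x hx h
    have e := congrArg E0 (mul_inv_cancel₀ hx)
    rw [Derivation.leibniz, h, Derivation.map_one_eq_zero, smul_zero, add_zero,
      smul_eq_mul] at e
    exact (mul_eq_zero.1 e).resolve_left hx
  have hzm : ∀ x y, E0 x = 0 → E0 y = 0 → E0 (x * y) = 0 := by
    intro x y hx hy
    rw [Derivation.leibniz, hx, hy, smul_zero, smul_zero, add_zero]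
  have hrat : ∀ i, E0 ((u 0)⁻¹ * u i) = 0 := by
    intro i
    have h1 : E0 (u 0) = u 0 := by
      have := hu1 0
      unfold Hm at this
      rw [hE0, this, Int.cast_one, one_mul]
    have h2 : E0 (u i) = u i := by
      have := hu1 i
      unfold Hm at this
      rw [hE0, this, Int.cast_one, one_mul]
    have e : u 0 * ((u 0)⁻¹ * u i) = u i := by
      rw [← mul_assoc, mul_inv_cancel₀ (hu0 0), one_mul]
    have h3 := congrArg E0 e
    rw [Derivation.leibniz, smul_eq_mul, smul_eq_mul, h1, h2] at h3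
    have h4 : u 0 * E0 ((u 0)⁻¹ * u i) = 0 := by
      linear_combination h3 - e
    exact (mul_eq_zero.1 h4).resolve_left (hu0 0)
  have hl0 : E0 l = 0 := by
    rw [hl, map_sub, Derivation.map_algebraMap, hzm _ _ (Derivation.map_algebraMap _ _) (hrat 1),
      sub_zero]
  have hm0 : E0 μ = 0 := by
    rw [hμ, map_sub, Derivation.map_one_eq_zero,
      hzm _ _ (Derivation.map_algebraMap _ _) (hrat 2), sub_zero]
  have hmi : E0 μ⁻¹ = 0 := hzi μ hμ0 hm0
  have hli : E0 (-(μ⁻¹ * l)) = 0 := by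
    rw [map_neg, hzm _ _ hmi hl0, neg_zero]
  have hHm : ∀ t x, Hm k (eu (uch a b u) (dch a b dd)) t x ↔ Hm k E0 t x := by
    intro t x
    unfold Hm
    rw [heu, hE0]
  have hTi : ∀ V j, V.coeff j = th (-(μ⁻¹ * l)) μ⁻¹ ((Tch a b u V).coeff j) := by
    intro V j
    rw [hTc]
    exact ((th_inv l μ hμ0 _).2).symm
  have hTw : ∀ n τ V, Tw (uch a b u) (dch a b dd) n τ V ↔ Tw u dd n τ (Tch a b u V) := by
    intro n τ V
    constructor
    · intro h
      refine ⟨fun j => ⟨fun hj => ?_, fun hj => ?_⟩, fun j c => ?_⟩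
      · rw [hTc]
        exact th_homog _ _ ((h.1 j).1 hj)
      · rw [hTc, (h.1 j).2 hj, map_zero]
      · rw [hTc, ← hE0]
        exact hp_th E0 ((hz _).2 hl0) ((hz _).2 hm0) (fun c => (hHm _ _).1 (h.2 j c)) c
    · intro h
      refine ⟨fun j => ⟨fun hj => ?_, fun hj => ?_⟩, fun j c => ?_⟩
      · rw [hTi]
        exact th_homog _ _ ((h.1 j).1 hj)
      · rw [hTi, (h.1 j).2 hj, map_zero]
      · rw [hTi, hHm]
        have h2 := h.2 j
        rw [← hE0] at h2
        exact hp_th E0 ((hz _).2 hli) ((hz _).2 hmi) h2 c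
  -- the chart
  have hPs : ∀ V j, (Ps u dd J m G (Tch a b u V)).coeff j =
      s3 a b ((Ps (uch a b u) (dch a b dd) (sch a b J) m G V).coeff j) := by
    intro V j
    unfold Ps
    rw [hae J, Psi_Tch a b m u dd G _ (hu0 0) hDt.eul V, ev3_s3]
  have hcf : ∀ V j a', cf u dd J m G (Tch a b u V) j a' ∈ Submodule.span k
      (Set.range fun a'' => cf (uch a b u) (dch a b dd) (sch a b J) m G V j a'') := by
    intro V j a'
    have h1 := s3_coeff a b ((Ps (uch a b u) (dch a b dd) (sch a b J) m G V).coeff j) a'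
    rw [← hPs] at h1
    exact h1
  have hcf' : ∀ V j a', cf (uch a b u) (dch a b dd) (sch a b J) m G V j a' ∈ Submodule.span k
      (Set.range fun a'' => cf u dd J m G (Tch a b u V) j a'') := by
    intro V j a'
    have h1 := s3_coeff (-a) (-b) ((Ps u dd J m G (Tch a b u V)).coeff j) a'
    rw [hPs V j, s3_inv, ← hPs V j] at h1
    exact h1
  have hspan : ∀ (S : Set F), (∀ x ∈ S, x ∈ Bb k u) → ∀ x ∈ Submodule.span k S, x ∈ Bb k u := by
    intro S hS x hx
    have h1 : Submodule.span k S ≤ (Bb k u).toSubmodule := Submodule.span_le.2 hS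
    exact h1 hx
  refine ⟨⟨?_, ?_⟩, ?_, ?_, hTw, ?_, ?_, ?_, hcf⟩
  · rw [hT]
    exact Polynomial.map_injective _ hinj
  · rw [hT]
    exact Polynomial.map_surjective _ hsurj
  · intro c
    unfold Tch
    rw [ev2_cq]
  · unfold Tch
    rw [ev2_X]
  · intro n τ V
    constructor
    · intro h
      refine ⟨(hTw n τ V).1 h.1, fun j a' => ?_⟩
      refine hspan _ ?_ _ (hcf V j a')
      rintro x ⟨a'', rfl⟩
      exact (hItg _).1 (h.2 j a'')
    · intro h
      refine ⟨(hTw n τ V).2 h.1, fun j a' => ?_⟩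
      rw [hItg]
      refine hspan _ ?_ _ (hcf' V j a')
      rintro x ⟨a'', rfl⟩
      exact h.2 j a''
  · intro V
    rw [hT, Polynomial.coe_mapRingHom]
    exact Polynomial.natDegree_map_eq_of_injective hinj V
  · intro V
    rw [hTc]
    constructor
    · intro h
      apply hinj
      rw [map_one]
      exact h
    · intro h
      rw [h, map_one]

end Pool.Agent.H19.SFU
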