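import Pool.Agent.H92.SF.LUT
import Pool.Agent.H92.SF.PQV
import Pool.Agent.H19.SRF.CN2a
import Pool.Agent.H19.SRF.TWM

/-!
# MP_70ba79_ag, THEOREM S: change of coordinates, the sections: linear substitutions (for TRY)
-/

set_option autoImplicit false

namespace Pool.Agent.H19.SFU

open MvPolynomial
open Pool.Agent.H84.SM (dp cr dt)
open Pool.Agent.H3.SF Pool.Agent.H92.SF
open Pool.Agent.H19.SRF (hm_zero hm_add hm_sum hm_mul hm_one)

section

variable {k F : Type} [Field k] [Field F] [Algebra k F]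

/-- linear substitution in two variables -/
noncomputable def th (l μ : F) : MvPolynomial (Fin 2) F →ₐ[F] MvPolynomial (Fin 2) F :=
  aeval ![X 0, C l * X 0 + C μ * X 1]

theorem th_X0 (l μ : F) : th l μ (X 0) = X 0 := by
  unfold th
  rw [aeval_X]
  rfl

theorem th_X1 (l μ : F) : th l μ (X 1) = C l * X 0 + C μ * X 1 := by
  unfold th
  rw [aeval_X]
  rfl

theorem th_C (l μ c : F) : th l μ (C c) = C c := by
  rw [MvPolynomial.algHom_C]
  rfl

theorem th_th (l μ l' μ' : F) (P : MvPolynomial (Fin 2) F) :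
    th l μ (th l' μ' P) = th (l' + μ' * l) (μ' * μ) P := by
  have h : (th l μ).comp (th l' μ') = th (l' + μ' * l) (μ' * μ) := by
    apply MvPolynomial.algHom_ext
    intro i
    fin_cases i
    · show th l μ (th l' μ' (X 0)) = th _ _ (X 0)
      rw [th_X0, th_X0, th_X0]
    · show th l μ (th l' μ' (X 1)) = th _ _ (X 1)
      rw [th_X1, th_X1, map_add, map_mul, map_mul, th_X0, th_X1, th_C, th_C, C_add, C_mul, C_mul]
      ring
  exact DFunLike.congr_fun h P

theorem th_id (P : MvPolynomial (Fin 2) F) : th 0 1 P = P := by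
  have h : th 0 1 = AlgHom.id F (MvPolynomial (Fin 2) F) := by
    apply MvPolynomial.algHom_ext
    intro i
    fin_cases i
    · show th 0 1 (X 0) = X 0
      rw [th_X0]
    · show th 0 1 (X 1) = X 1
      rw [th_X1, C_0, C_1, zero_mul, zero_add, one_mul]
  exact DFunLike.congr_fun h P

theorem th_inv (l μ : F) (hμ : μ ≠ 0) (P : MvPolynomial (Fin 2) F) :
    th l μ (th (-(μ⁻¹ * l)) μ⁻¹ P) = P ∧ th (-(μ⁻¹ * l)) μ⁻¹ (th l μ P) = P := by
  constructor
  · rw [th_th]
    have e1 : -(μ⁻¹ * l) + μ⁻¹ * l = 0 := by ring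
    rw [e1, inv_mul_cancel₀ hμ, th_id]
  · rw [th_th]
    have e1 : l + μ * -(μ⁻¹ * l) = 0 := by
      field_simp
      ring
    rw [e1, mul_inv_cancel₀ hμ, th_id]

theorem th_homog (l μ : F) {P : MvPolynomial (Fin 2) F} {n : ℕ} (hP : P.IsHomogeneous n) :
    (th l μ P).IsHomogeneous n := by
  have h := hP.aeval (n := 1) (![X 0, C l * X 0 + C μ * X 1] : Fin 2 → MvPolynomial (Fin 2) F) (by
    intro i
    fin_cases i
    · exact isHomogeneous_X _ _
    · have h1 := (isHomogeneous_C (Fin 2) l).mul (isHomogeneous_X F (0 : Fin 2))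
      have h2 := (isHomogeneous_C (Fin 2) μ).mul (isHomogeneous_X F (1 : Fin 2))
      rw [zero_add] at h1 h2
      show (C l * X 0 + C μ * X 1 : MvPolynomial (Fin 2) F).IsHomogeneous 1
      exact h1.add h2)
  rw [one_mul] at h
  exact h

theorem hp_th (E : Derivation k F F) {l μ : F} (hl : Hm k E 0 l) (hμ : Hm k E 0 μ) {t : ℤ}
    {P : MvPolynomial (Fin 2) F} (hP : ∀ a, Hm k E t (P.coeff a)) :
    ∀ a, Hm k E t ((th l μ P).coeff a) := by
  have hmul : ∀ (s t : ℤ) (P Q : MvPolynomial (Fin 2) F), (∀ a, Hm k E s (P.coeff a)) →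
      (∀ a, Hm k E t (Q.coeff a)) → ∀ a, Hm k E (s + t) ((P * Q).coeff a) := by
    intro s t P Q hP hQ a
    rw [coeff_mul]
    exact hm_sum _ _ fun x _ => hm_mul (hP _) (hQ _)
  have hC : ∀ (t : ℤ) (c : F), Hm k E t c → ∀ a, Hm k E t ((C c : MvPolynomial (Fin 2) F).coeff a)
      := by
    intro t c hc a
    rw [coeff_C]
    split_ifs
    exacts [hc, hm_zero _ _]
  have hX : ∀ i a, Hm k E 0 ((X i : MvPolynomial (Fin 2) F).coeff a) := by
    intro i a
    rw [coeff_X]
    split_ifs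
    exacts [hm_one _, hm_zero _ _]
  have hf : ∀ (i : Fin 2) a, Hm k E 0
      (((![X 0, C l * X 0 + C μ * X 1] : Fin 2 → MvPolynomial (Fin 2) F) i).coeff a) := by
    intro i a
    fin_cases i
    · exact hX 0 a
    · have h1 := hmul 0 0 _ _ (hC 0 l hl) (hX 0) a
      have h2 := hmul 0 0 _ _ (hC 0 μ hμ) (hX 1) a
      rw [add_zero] at h1 h2
      show Hm k E 0 ((C l * X 0 + C μ * X 1 : MvPolynomial (Fin 2) F).coeff a)
      rw [coeff_add]
      exact hm_add h1 h2
  have hpow : ∀ (Q : MvPolynomial (Fin 2) F) (n : ℕ), (∀ a, Hm k E 0 (Q.coeff a)) →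
      ∀ a, Hm k E 0 ((Q ^ n).coeff a) := by
    intro Q n hQ
    induction n with
    | zero =>
      rw [pow_zero]
      exact hC 0 1 (hm_one _)
    | succ n ih =>
      rw [pow_succ]
      have h1 := hmul 0 0 _ _ ih hQ
      rwa [add_zero] at h1
  unfold th
  rw [aeval_def, eval₂_eq']
  intro a
  rw [coeff_sum]
  refine hm_sum _ _ fun d _ => ?_
  have h1 := hmul t (0 + 0) _ _ (hC t _ (hP d)) (hmul 0 0 _ _ (hpow _ (d 0) (hf 0))
    (hpow _ (d 1) (hf 1))) a
  rw [add_zero, add_zero] at h1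
  rw [Fin.prod_univ_two]
  exact h1

/-- substitution in three variables, with coefficients in `k` -/
noncomputable def s3 (a b : k) : MvPolynomial (Fin 3) F →ₐ[F] MvPolynomial (Fin 3) F :=
  aeval ![X 0, X 1, X 2 + C (algebraMap k F a) * X 0 + C (algebraMap k F b) * X 1]

theorem s3_coeff (a b : k) (P : MvPolynomial (Fin 3) F) (d : Fin 3 →₀ ℕ) :
    (s3 a b P).coeff d ∈ Submodule.span k (Set.range fun d' => P.coeff d') := by
  obtain ⟨f, hf⟩ : ∃ f : Fin 3 → MvPolynomial (Fin 3) k,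
      f = ![X 0, X 1, X 2 + C a * X 0 + C b * X 1] := ⟨_, rfl⟩
  have hmap : ∀ i, (![X 0, X 1, X 2 + C (algebraMap k F a) * X 0 + C (algebraMap k F b) * X 1] :
      Fin 3 → MvPolynomial (Fin 3) F) i = map (algebraMap k F) (f i) := by
    intro i
    rw [hf]
    fin_cases i
    · exact (map_X _ _).symm
    · exact (map_X _ _).symm
    · show _ = map (algebraMap k F) (X 2 + C a * X 0 + C b * X 1)
      rw [map_add, map_add, map_mul, map_mul, map_X, map_X, map_X, map_C, map_C]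
      rfl
  unfold s3
  rw [aeval_def, eval₂_eq', coeff_sum]
  refine Submodule.sum_mem _ fun e _ => ?_
  have h1 : (∏ i, (![X 0, X 1, X 2 + C (algebraMap k F a) * X 0 + C (algebraMap k F b) * X 1] :
      Fin 3 → MvPolynomial (Fin 3) F) i ^ e i) = map (algebraMap k F) (∏ i, f i ^ e i) := by
    rw [map_prod]
    refine Finset.prod_congr rfl fun i _ => ?_
    rw [map_pow, hmap]
  rw [h1]
  have h2 : (algebraMap F (MvPolynomial (Fin 3) F) (P.coeff e) *
      map (algebraMap k F) (∏ i, f i ^ e i)).coeff d =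
      (∏ i, f i ^ e i).coeff d • P.coeff e := by
    rw [MvPolynomial.algebraMap_eq, coeff_C_mul, coeff_map, Algebra.smul_def]
    ring
  rw [h2]
  exact Submodule.smul_mem _ _ (Submodule.subset_span ⟨e, rfl⟩)

theorem s3_X0 (a b : k) : s3 a b (X 0 : MvPolynomial (Fin 3) F) = X 0 := by
  unfold s3
  rw [aeval_X]
  rfl

theorem s3_X1 (a b : k) : s3 a b (X 1 : MvPolynomial (Fin 3) F) = X 1 := by
  unfold s3
  rw [aeval_X]
  rfl

theorem s3_X2 (a b : k) : s3 a b (X 2 : MvPolynomial (Fin 3) F) =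
    X 2 + C (algebraMap k F a) * X 0 + C (algebraMap k F b) * X 1 := by
  unfold s3
  rw [aeval_X]
  rfl

theorem s3_C (a b : k) (c : F) : s3 a b (C c : MvPolynomial (Fin 3) F) = C c := by
  rw [MvPolynomial.algHom_C]
  rfl

theorem s3_inv (a b : k) (P : MvPolynomial (Fin 3) F) : s3 (-a) (-b) (s3 a b P) = P := by
  have h : (s3 (-a) (-b)).comp (s3 a b) = AlgHom.id F (MvPolynomial (Fin 3) F) := by
    apply MvPolynomial.algHom_ext
    intro i
    fin_cases i
    · show s3 (-a) (-b) (s3 a b (X 0 : MvPolynomial (Fin 3) F)) = X 0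
      rw [s3_X0, s3_X0]
    · show s3 (-a) (-b) (s3 a b (X 1 : MvPolynomial (Fin 3) F)) = X 1
      rw [s3_X1, s3_X1]
    · show s3 (-a) (-b) (s3 a b (X 2 : MvPolynomial (Fin 3) F)) = X 2
      rw [s3_X2, map_add, map_add, map_mul, map_mul, s3_X0, s3_X1, s3_X2, s3_C, s3_C,
        map_neg (algebraMap k F), map_neg (algebraMap k F), C_neg, C_neg]
      ring
  exact DFunLike.congr_fun h P

theorem Tch_eq (a b : k) (u : Fin 3 → F) : Tch a b u = Polynomial.mapRingHom
    (th (algebraMap k F b - algebraMap k F a * ((u 0)⁻¹ * u 1))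
      (1 - algebraMap k F a * ((u 0)⁻¹ * u 2)) : MvPolynomial (Fin 2) F →+* _) := by
  obtain ⟨l, hl⟩ : ∃ l : F, l = algebraMap k F b - algebraMap k F a * ((u 0)⁻¹ * u 1) := ⟨_, rfl⟩
  obtain ⟨μ, hμ⟩ : ∃ μ : F, μ = 1 - algebraMap k F a * ((u 0)⁻¹ * u 2) := ⟨_, rfl⟩
  rw [← hl, ← hμ]
  obtain ⟨f, hf⟩ : ∃ f : MvPolynomial (Fin 2) F →+* MvPolynomial (Fin 2) F,
      f = (th l μ : MvPolynomial (Fin 2) F →+* _) := ⟨_, rfl⟩
  have f0 : f (X 0) = X 0 := by
    rw [hf]
    exact th_X0 _ _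
  have f1 : f (X 1) = C l * X 0 + C μ * X 1 := by
    rw [hf]
    exact th_X1 _ _
  have fc : ∀ c, f (C c) = C c := by
    intro c
    rw [hf]
    exact th_C _ _ _
  rw [← hf]
  unfold Tch
  symm
  apply ev2_ext
  · intro c
    rw [Polynomial.coe_mapRingHom]
    show Polynomial.map f (Polynomial.C (C c)) = Polynomial.C (C c)
    rw [Polynomial.map_C, fc]
  · rw [Polynomial.coe_mapRingHom, Polynomial.map_C, f0]
    rfl
  · rw [Polynomial.coe_mapRingHom, Polynomial.map_C, f1]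
    have e : (C l * X 0 + C μ * X 1 : MvPolynomial (Fin 2) F) = C (algebraMap k F a) *
      (- (C ((u 0)⁻¹ * u 1) * X 0 + C ((u 0)⁻¹ * u 2) * X 1)) +
      C (algebraMap k F b) * X 0 + X 1 := by
      rw [hl, hμ]
      simp only [C_sub, C_mul, C_1]
      ring
    rw [e, Polynomial.C_add, Polynomial.C_add, Polynomial.C_mul, Polynomial.C_mul,
      Polynomial.C_neg]
    rfl
  · rw [Polynomial.coe_mapRingHom, Polynomial.map_X]

theorem ev2_congr {L R : Type} [CommRing L] [CommRing R] (φ : L →+* R) {p p' : Fin 3 → R}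
    {w w' : R} (h1 : p 1 = p' 1) (h2 : p 2 = p' 2) (h3 : w = w') : ev2 φ p w = ev2 φ p' w' := by
  unfold ev2
  rw [h1, h2, h3]

theorem hq_ch {R : Type} [CommRing R] (A B : R) (H H' : Fin 3 → Fin 3 → R) (v v' : Fin 3 → R)
    (h00 : H' 0 0 = H 0 0) (h01 : H' 0 1 = H 0 1) (h10 : H' 1 0 = H 1 0) (h11 : H' 1 1 = H 1 1)
    (h02 : H' 0 2 = H 0 2 + A * H 0 0 + B * H 0 1) (h12 : H' 1 2 = H 1 2 + A * H 1 0 + B * H 1 1)
    (h20 : H' 2 0 = H 2 0 + A * H 0 0 + B * H 1 0) (h21 : H' 2 1 = H 2 1 + A * H 0 1 + B * H 1 1)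
    (h22 : H' 2 2 = H 2 2 + A * H 2 0 + B * H 2 1 + A * (H 0 2 + A * H 0 0 + B * H 0 1) +
      B * (H 1 2 + A * H 1 0 + B * H 1 1)) (v0 : v' 0 = v 0 - A * v 2) (v1 : v' 1 = v 1 - B * v 2)
    (v2 : v' 2 = v 2) : hq H' v' v' = hq H v v := by
  simp only [hq, Fin.sum_univ_three]
  rw [h00, h01, h10, h11, h02, h12, h20, h21, h22, v0, v1, v2]
  ring

/-- the chart after the change of the coordinates -/
theorem Psi_Tch (a b : k) (m : ℕ) (u : Fin 3 → F) (dd : Fin 3 → Derivation k F F) (G s : F)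
    (hu0 : u 0 ≠ 0) (he : dp u (grd dd G) = m * G) (V : Q2 F) :
    Psi m u (grd dd G) G (hes dd G) s (Tch a b u V) =
      ev3 cc ![rv 0, rv 1, rv 2 + cc (algebraMap k F a) * rv 0 + cc (algebraMap k F b) * rv 1] zv
        (Psi m (uch a b u) (grd (dch a b dd) G) G (hes (dch a b dd) G) s V) := by
  rw [ev3_Psi]
  have h0 : (u 0)⁻¹ * u 0 = 1 := inv_mul_cancel₀ hu0
  have hpv := Psi_pv m u (grd dd G) G (hes dd G) s (u 0)⁻¹ he h0
  have hL : (Psi m u (grd dd G) G (hes dd G) s).comp (Tch a b u) =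
      ev2 cc ![0, pc m u (grd dd G) G s 1, cc (algebraMap k F a) * pc m u (grd dd G) G s 0 +
        cc (algebraMap k F b) * pc m u (grd dd G) G s 1 + pc m u (grd dd G) G s 2]
        (wc m u (grd dd G) G (hes dd G) s) := by
    have h1 : Psi m u (grd dd G) G (hes dd G) s (Polynomial.C (X 0)) = pc m u (grd dd G) G s 1 :=
      hpv 1
    have h2 : Psi m u (grd dd G) G (hes dd G) s (Polynomial.C (X 1)) = pc m u (grd dd G) G s 2 :=
      hpv 2
    apply ev2_ext
    · intro c
      rw [RingHom.comp_apply]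
      unfold Tch
      rw [ev2_cq, Psi_cq]
    · rw [RingHom.comp_apply]
      unfold Tch
      rw [ev2_C, eval₂Hom_X']
      exact h1
    · rw [RingHom.comp_apply]
      unfold Tch
      rw [ev2_C, eval₂Hom_X']
      show Psi m u (grd dd G) G (hes dd G) s (cq (algebraMap k F a) * pv u (u 0)⁻¹ 0 +
        cq (algebraMap k F b) * Polynomial.C (X 0) + Polynomial.C (X 1)) = _
      rw [map_add, map_add, map_mul, map_mul, Psi_cq, Psi_cq, hpv, h1, h2]
      rfl
    · rw [RingHom.comp_apply]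
      unfold Tch
      rw [ev2_X, Psi_X]
  have hL' := congrArg (fun f : Q2 F →+* C3 F => f V) hL
  simp only [RingHom.comp_apply] at hL'
  rw [hL']
  -- comparison of the values
  obtain ⟨A, hA⟩ : ∃ A : C3 F, A = cc (algebraMap k F a) := ⟨_, rfl⟩
  obtain ⟨B, hB⟩ : ∃ B : C3 F, B = cc (algebraMap k F b) := ⟨_, rfl⟩
  have g0 : (cc (grd (dch a b dd) G 0) : C3 F) = cc (grd dd G 0) := rfl
  have g1 : (cc (grd (dch a b dd) G 1) : C3 F) = cc (grd dd G 1) := rfl
  have hd2 : ∀ x, dch a b dd 2 x = dd 2 x + algebraMap k F a * dd 0 x +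
      algebraMap k F b * dd 1 x := by
    intro x
    show (dd 2 + a • dd 0 + b • dd 1) x = _
    rw [Derivation.add_apply, Derivation.add_apply, Derivation.smul_apply, Derivation.smul_apply,
      Algebra.smul_def, Algebra.smul_def]
  have g2 : (cc (grd (dch a b dd) G 2) : C3 F) = cc (grd dd G 2) + A * cc (grd dd G 0) +
      B * cc (grd dd G 1) := by
    rw [hA, hB, ← map_mul, ← map_mul, ← map_add, ← map_add]
    exact congrArg cc (hd2 G)
  have hmu : dp (fun i => cc (uch a b u i)) ![rv 0, rv 1, rv 2 + A * rv 0 + B * rv 1] =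
      (muc u : C3 F) := by
    unfold dp muc dp
    rw [Fin.sum_univ_three, Fin.sum_univ_three]
    show cc (u 0 - algebraMap k F a * u 2) * rv 0 + cc (u 1 - algebraMap k F b * u 2) * rv 1 +
      cc (u 2) * (rv 2 + A * rv 0 + B * rv 1) = _
    rw [map_sub, map_sub, map_mul, map_mul, ← hA, ← hB]
    ring
  have hi2 : ∀ D : Derivation k F F, D (dch a b dd 2 G) = D (dd 2 G) +
      algebraMap k F a * D (dd 0 G) + algebraMap k F b * D (dd 1 G) := by
    intro D
    have e : dch a b dd 2 G = dd 2 G + a • dd 0 G + b • dd 1 G := rfl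
    rw [e, map_add, map_add, Derivation.map_smul, Derivation.map_smul, Algebra.smul_def,
      Algebra.smul_def]
  rw [← hA, ← hB, hmu]
  refine congrArg (fun f : Q2 F →+* C3 F => f V) (ev2_congr _ ?_ ?_ ?_)
  · show pc m u (grd dd G) G s 1 = cc s ^ 2 * (cc (grd (dch a b dd) G 1) * muc u -
      cc (m * G) * rv 1)
    rw [g1]
    rfl
  · show A * pc m u (grd dd G) G s 0 + B * pc m u (grd dd G) G s 1 + pc m u (grd dd G) G s 2 =
      cc s ^ 2 * (cc (grd (dch a b dd) G 2) * muc u -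
        cc (m * G) * (rv 2 + A * rv 0 + B * rv 1))
    rw [g2]
    unfold pc
    ring
  · unfold wc
    have hhq : hq (fun i j => cc (hes (dch a b dd) G i j))
        (cr (fun i => cc (grd (dch a b dd) G i)) ![rv 0, rv 1, rv 2 + A * rv 0 + B * rv 1])
        (cr (fun i => cc (grd (dch a b dd) G i)) ![rv 0, rv 1, rv 2 + A * rv 0 + B * rv 1]) =
        hq (fun i j => (cc (hes dd G i j) : C3 F)) (gxr (grd dd G)) (gxr (grd dd G)) := by
      have hs0 : ∀ i, (cc (dd i (dch a b dd 2 G)) : C3 F) = cc (hes dd G i 2) +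
          A * cc (hes dd G i 0) + B * cc (hes dd G i 1) := by
        intro i
        rw [hi2, map_add, map_add, map_mul, map_mul, hA, hB]
        rfl
      have hs1 : ∀ x, (cc (dch a b dd 2 x) : C3 F) = cc (dd 2 x) + A * cc (dd 0 x) +
          B * cc (dd 1 x) := by
        intro x
        rw [hd2, map_add, map_add, map_mul, map_mul, hA, hB]
      refine hq_ch A B _ _ _ _ rfl rfl rfl rfl (hs0 0) (hs0 1) (hs1 _) (hs1 _) ?_ ?_ ?_ ?_
      · show (cc (dch a b dd 2 (dch a b dd 2 G)) : C3 F) = _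
        rw [hs1, hs0, hs0, hs0]
      · show cc (grd (dch a b dd) G 1) * (rv 2 + A * rv 0 + B * rv 1) -
          cc (grd (dch a b dd) G 2) * rv 1 = (cc (grd dd G 1) * rv 2 - cc (grd dd G 2) * rv 1) -
            A * (cc (grd dd G 0) * rv 1 - cc (grd dd G 1) * rv 0)
        rw [g1, g2]
        ring
      · show cc (grd (dch a b dd) G 2) * rv 0 -
          cc (grd (dch a b dd) G 0) * (rv 2 + A * rv 0 + B * rv 1) =
          (cc (grd dd G 2) * rv 0 - cc (grd dd G 0) * rv 2) -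
            B * (cc (grd dd G 0) * rv 1 - cc (grd dd G 1) * rv 0)
        rw [g0, g2]
        ring
      · show cc (grd (dch a b dd) G 0) * rv 1 - cc (grd (dch a b dd) G 1) * rv 0 =
          cc (grd dd G 0) * rv 1 - cc (grd dd G 1) * rv 0
        rw [g0, g1]
    rw [hhq]

end

end Pool.Agent.H19.SFU
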